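import Mathlib

/-!
The KKM lemma for convex sets (elementary), and a covering lemma.
-/

set_option autoImplicit false

open Set Module

namespace Pool.Agent.Lib.MP_5e7226_co.MA

section KKM

variable {E : Type*} [NormedAddCommGroup E] [NormedSpace ℝ E]

/-- The KKM lemma for convex sets, by induction and one separating hyperplane. -/
theorem kkm_convex : ∀ (n : ℕ) (C : Fin (n + 1) → Set E) (q : Fin (n + 1) → E),
    (∀ j, Convex ℝ (C j)) → (∀ j, IsCompact (C j)) → (∀ j k, j ≠ k → q k ∈ C j) →
    convexHull ℝ (range q) ⊆ ⋃ j, C j → (⋂ j, C j).Nonempty := by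
  intro n
  induction n with
  | zero =>
    intro C q _ _ _ hcov
    have h : q 0 ∈ ⋃ j, C j := hcov (subset_convexHull ℝ _ ⟨0, rfl⟩)
    obtain ⟨j, hj⟩ := mem_iUnion.1 h
    refine ⟨q 0, mem_iInter.2 fun i => ?_⟩
    have : i = j := Fin.ext (by omega)
    rw [this]
    exact hj
  | succ n ih =>
    intro C q hconv hcomp hq hcov
    by_contra hemp
    rw [not_nonempty_iff_eq_empty] at hemp
    have hDconv : Convex ℝ (⋂ j : Fin (n + 1), C j.castSucc) := convex_iInter fun j => hconv _
    have hDcomp : IsCompact (⋂ j : Fin (n + 1), C j.castSucc) :=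
      (hcomp _).of_isClosed_subset (isClosed_iInter fun j => (hcomp _).isClosed)
        (iInter_subset (fun j : Fin (n + 1) => C j.castSucc) 0)
    have hdisj : Disjoint (⋂ j : Fin (n + 1), C j.castSucc) (C (Fin.last (n + 1))) := by
      rw [disjoint_left]
      intro x hx hx'
      have : x ∈ ⋂ j, C j := by
        rw [mem_iInter]
        intro j
        refine Fin.lastCases hx' (fun i => ?_) j
        exact mem_iInter.1 hx i
      rw [hemp] at this
      exact this
    obtain ⟨f, u, v, hf1, huv, hf2⟩ := geometric_hahn_banach_compact_closed hDconv hDcomp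
      (hconv _) (hcomp _).isClosed hdisj
    have h1 : f (q (Fin.last (n + 1))) < u :=
      hf1 _ (mem_iInter.2 fun j => hq _ _ (Fin.castSucc_lt_last j).ne)
    have h2 : ∀ k : Fin (n + 1), v < f (q k.castSucc) := fun k =>
      hf2 _ (hq _ _ (Fin.castSucc_lt_last k).ne')
    obtain ⟨τ, hτ⟩ : ∃ τ : Fin (n + 1) → ℝ, ∀ k, τ k = (u - f (q (Fin.last (n + 1)))) /
      (f (q k.castSucc) - f (q (Fin.last (n + 1)))) := ⟨_, fun k => rfl⟩
    have hpos : ∀ k : Fin (n + 1), 0 < f (q k.castSucc) - f (q (Fin.last (n + 1))) := fun k => by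
      linarith [h2 k]
    have hτ0 : ∀ k, 0 ≤ τ k := fun k => by
      rw [hτ]
      exact div_nonneg (by linarith) (hpos k).le
    have hτ1 : ∀ k, τ k ≤ 1 := fun k => by
      rw [hτ, div_le_one (hpos k)]
      linarith [h2 k]
    obtain ⟨q', hq'⟩ : ∃ q' : Fin (n + 1) → E, ∀ k, q' k =
      (1 - τ k) • q (Fin.last (n + 1)) + τ k • q k.castSucc := ⟨_, fun k => rfl⟩
    have hfq' : ∀ k, f (q' k) = u := fun k => by
      rw [hq', map_add, map_smul, map_smul, smul_eq_mul, smul_eq_mul]
      have h3 : τ k * (f (q k.castSucc) - f (q (Fin.last (n + 1)))) =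
          u - f (q (Fin.last (n + 1))) := by
        rw [hτ, div_mul_cancel₀ _ (hpos k).ne']
      linarith
    have hlev : Convex ℝ {x : E | f x = u} := convex_hyperplane f.toLinearMap.isLinear u
    have hx := ih (fun j => C j.castSucc ∩ {x | f x = u}) q'
      (fun j => (hconv _).inter hlev)
      (fun j => (hcomp _).inter_right (isClosed_eq f.continuous continuous_const))
      (fun j k hjk => by
        refine ⟨?_, hfq' k⟩
        rw [hq']
        exact (hconv _) (hq _ _ (Fin.castSucc_lt_last j).ne)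
          (hq _ _ (fun h => hjk (Fin.castSucc_injective _ h))) (by linarith [hτ1 k]) (hτ0 k)
          (by ring))
      (by
        intro x hx
        have hx1 : x ∈ convexHull ℝ (range q) := by
          refine convexHull_min ?_ (convex_convexHull ℝ _) hx
          rintro _ ⟨k, rfl⟩
          rw [hq']
          exact (convex_convexHull ℝ (range q)) (subset_convexHull ℝ _ ⟨_, rfl⟩)
            (subset_convexHull ℝ _ ⟨_, rfl⟩) (by linarith [hτ1 k]) (hτ0 k) (by ring)
        have hx2 : f x = u := by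
          refine convexHull_min ?_ hlev hx
          rintro _ ⟨k, rfl⟩
          exact hfq' k
        obtain ⟨j, hj⟩ := mem_iUnion.1 (hcov hx1)
        revert hj
        refine Fin.lastCases (fun hj => ?_) (fun i hj => ?_) j
        · have := hf2 _ hj
          linarith
        · exact mem_iUnion.2 ⟨i, hj, hx2⟩)
    obtain ⟨x, hx⟩ := hx
    rw [mem_iInter] at hx
    have h4 := hf1 x (mem_iInter.2 fun j => (hx j).1)
    have h5 : f x = u := (hx 0).2
    linarith

end KKM

section Core

variable {E : Type*} [NormedAddCommGroup E] [NormedSpace ℝ E]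

/-- The homothetic copy of `K` with centre `u` and ratio `1 - β`. -/
def Ku (K : Set E) (β : ℝ) (u : E) : Set E := {z | ∃ y ∈ K, z = β • u + (1 - β) • y}

lemma coeff_lt {K : Set E} (hK : Convex ℝ K) {β : ℝ} (hβ : β < 1) {u z : E} (hu : u ∈ K)
    (hz : z ∉ Ku K β u) {c : ℝ} (hc1 : c ≤ 1) {y : E} (hy : y ∈ K)
    (h : z = c • u + (1 - c) • y) : c < β := by
  by_contra hcon
  push Not at hcon
  apply hz
  have h1 : 0 < 1 - β := by linarith
  refine ⟨((c - β) / (1 - β)) • u + ((1 - c) / (1 - β)) • y,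
    hK hu hy (div_nonneg (by linarith) h1.le) (div_nonneg (by linarith) h1.le) ?_, ?_⟩
  · rw [← add_div, div_eq_one_iff_eq h1.ne']
    ring
  · rw [smul_add, smul_smul, smul_smul, mul_div_cancel₀ _ h1.ne', mul_div_cancel₀ _ h1.ne',
      ← add_assoc, ← add_smul, h]
    congr 2
    ring

lemma coeff_lt_sum {K : Set E} (hK : Convex ℝ K) {β : ℝ} (hβ : β < 1) {u z : E} (hu : u ∈ K)
    (hz : z ∉ Ku K β u) {ι : Type*} [Fintype ι] [DecidableEq ι] (w : ι → ℝ) (p : ι → E)
    (hw : ∀ i, 0 ≤ w i) (hw1 : ∑ i, w i = 1) (hp : ∀ i, p i ∈ K) (hz' : ∑ i, w i • p i = z)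
    {i : ι} (hpi : p i = u) : w i < β := by
  have h1 : w i + ∑ j ∈ Finset.univ.erase i, w j = 1 := by
    rw [Finset.add_sum_erase _ _ (Finset.mem_univ i), hw1]
  have h2 : w i • u + ∑ j ∈ Finset.univ.erase i, w j • p j = z := by
    rw [← hpi, Finset.add_sum_erase _ (fun j => w j • p j) (Finset.mem_univ i), hz']
  have h3 : 0 ≤ ∑ j ∈ Finset.univ.erase i, w j := Finset.sum_nonneg fun j _ => hw j
  have hwi : w i ≤ 1 := by linarith
  rcases h3.eq_or_lt with h4 | h4
  · have h5 : ∀ j ∈ Finset.univ.erase i, w j = 0 :=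
      (Finset.sum_eq_zero_iff_of_nonneg fun j _ => hw j).1 h4.symm
    have h6 : ∑ j ∈ Finset.univ.erase i, w j • p j = 0 :=
      Finset.sum_eq_zero fun j hj => by rw [h5 j hj, zero_smul]
    refine coeff_lt hK hβ hu hz hwi hu ?_
    rw [h6] at h2
    have h7 : 1 - w i = 0 := by linarith
    rw [h7, zero_smul]
    exact h2.symm
  · have h5 : 1 - w i = ∑ j ∈ Finset.univ.erase i, w j := by linarith
    refine coeff_lt hK hβ hu hz hwi
      (y := ∑ j ∈ Finset.univ.erase i, (w j / ∑ j ∈ Finset.univ.erase i, w j) • p j) ?_ ?_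
    · refine hK.sum_mem (fun j _ => div_nonneg (hw j) h4.le) ?_ (fun j _ => hp j)
      rw [← Finset.sum_div, div_self h4.ne']
    · rw [h5, Finset.smul_sum, ← h2]
      congr 1
      refine Finset.sum_congr rfl fun j _ => ?_
      rw [smul_smul, mul_div_cancel₀ _ h4.ne']

lemma exchange {n : ℕ} (w ρ : Fin (n + 1) → ℝ) (hw : ∀ j, 0 ≤ w j) (hρ : ∃ j, 0 < ρ j) :
    ∃ c : ℝ, 0 ≤ c ∧ (∃ k, w k - c * ρ k = 0) ∧ ∀ j, 0 ≤ w j - c * ρ j := by
  classical
  obtain ⟨j₀, hj₀⟩ := hρ
  obtain ⟨k, hk, hmin⟩ := Finset.exists_min_image (Finset.univ.filter fun j => 0 < ρ j)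
    (fun j => w j / ρ j) ⟨j₀, by simp [hj₀]⟩
  rw [Finset.mem_filter] at hk
  have hk' := hk.2
  refine ⟨w k / ρ k, div_nonneg (hw k) hk'.le, ⟨k, ?_⟩, fun j => ?_⟩
  · rw [div_mul_cancel₀ _ hk'.ne', sub_self]
  · by_cases hj : 0 < ρ j
    · have h1 := hmin j (by rw [Finset.mem_filter]; exact ⟨Finset.mem_univ _, hj⟩)
      rw [le_div_iff₀ hj] at h1
      linarith
    · push Not at hj
      have h1 : w k / ρ k * ρ j ≤ 0 := mul_nonpos_of_nonneg_of_nonpos (div_nonneg (hw k) hk'.le) hj
      linarith [hw j]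

/-- **Covering by `d + 1` homothetic copies.** -/
theorem cover_core [FiniteDimensional ℝ E] {K : Set E} (hK : Convex ℝ K) {d : ℕ}
    (hd : finrank ℝ E = d) (hd1 : 1 ≤ d) {β : ℝ} (hβ0 : 0 < β) (hβ1 : β < 1) (hβd : d * β ≤ 1)
    (u : Fin (d + 1) → E) (hu : ∀ j, u j ∈ K) (w : Fin (d + 1) → ℝ) (hw : ∀ j, 0 ≤ w j)
    (hw1 : ∑ j, w j = 1) (hzu : ∀ j, ∑ j, w j • u j ∉ Ku K β (u j)) :
    ∃ c : Fin (d + 1) → E, ∀ x ∈ K, ∃ k, ∃ y ∈ K, x = c k + (d * β) • y := by
  classical
  obtain ⟨z, hz⟩ : ∃ z, z = ∑ j, w j • u j := ⟨_, rfl⟩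
  rw [← hz] at hzu
  -- no coefficient vanishes
  have hno : ∀ w' : Fin (d + 1) → ℝ, (∀ j, 0 ≤ w' j) → ∑ j, w' j = 1 →
      ∑ j, w' j • u j = z → ∀ k, w' k ≠ 0 := by
    intro w' h1 h2 h3 k hk
    have h4 : ∑ j ∈ Finset.univ.erase k, w' j = 1 := by
      have := Finset.add_sum_erase Finset.univ w' (Finset.mem_univ k)
      rw [hk, zero_add, h2] at this
      exact this
    have h5 : ∑ j ∈ Finset.univ.erase k, w' j < ∑ j ∈ Finset.univ.erase k, β := by
      refine Finset.sum_lt_sum_of_nonempty ?_ fun j _ =>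
        coeff_lt_sum hK hβ1 (hu j) (hzu j) w' u h1 h2 hu h3 rfl
      rw [← Finset.card_pos, Finset.card_erase_of_mem (Finset.mem_univ k), Finset.card_univ,
        Fintype.card_fin]
      omega
    rw [Finset.sum_const, Finset.card_erase_of_mem (Finset.mem_univ k), Finset.card_univ,
      Fintype.card_fin, Nat.add_sub_cancel, nsmul_eq_mul, h4] at h5
    linarith
  -- affine independence
  have hind : AffineIndependent ℝ u := by
    rw [affineIndependent_iff_of_fintype]
    intro ρ h1 h2
    rw [Finset.weightedVSub_eq_linear_combination Finset.univ h1] at h2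
    by_contra hcon
    have hex : ∃ j, 0 < ρ j := by
      by_contra hneg
      push Not at hneg hcon
      obtain ⟨i, hi⟩ := hcon
      exact hi ((Finset.sum_eq_zero_iff_of_nonpos fun j _ => hneg j).1 h1 i (Finset.mem_univ i))
    obtain ⟨c, -, ⟨k, hk⟩, hc⟩ := exchange w ρ hw hex
    refine hno (fun j => w j - c * ρ j) hc ?_ ?_ k hk
    · rw [Finset.sum_sub_distrib, hw1, ← Finset.mul_sum, h1]
      ring
    · have h3 : ∀ j, (w j - c * ρ j) • u j = w j • u j - c • (ρ j • u j) := fun j => by
        rw [sub_smul, smul_smul]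
      simp only [h3]
      rw [Finset.sum_sub_distrib, ← Finset.smul_sum, h2, smul_zero, sub_zero, hz]
  have htop : affineSpan ℝ (range u) = ⊤ := by
    rw [hind.affineSpan_eq_top_iff_card_eq_finrank_add_one, Fintype.card_fin, hd]
  let b : AffineBasis (Fin (d + 1)) ℝ E := ⟨u, hind, htop⟩
  refine ⟨fun k => z - β • ∑ j ∈ Finset.univ.erase k, u j, fun x hx => ?_⟩
  have hb1 : ∑ j, b.coord j x = 1 := b.sum_coord_apply_eq_one x
  have hb2 : ∑ j, b.coord j x • u j = x := b.linear_combination_coord_eq_self x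
  have hex : ∃ j, 0 < b.coord j x := by
    by_contra hneg
    push Not at hneg
    have : ∑ j, b.coord j x ≤ 0 := Finset.sum_nonpos fun j _ => hneg j
    linarith
  obtain ⟨c, hc0, ⟨k, hk⟩, hc⟩ := exchange w (fun j => b.coord j x) hw hex
  obtain ⟨a, ha⟩ : ∃ a : Fin (d + 1) → ℝ, ∀ j, a j = w j - c * b.coord j x := ⟨_, fun j => rfl⟩
  have ha0 : ∀ j, 0 ≤ a j := fun j => by rw [ha]; exact hc j
  have hak : a k = 0 := by rw [ha]; exact hk
  have hasum : ∑ j, a j = 1 - c := by
    simp only [ha]
    rw [Finset.sum_sub_distrib, hw1, ← Finset.mul_sum, hb1]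
    ring
  have hz2 : c • x + ∑ j, a j • u j = z := by
    have h3 : ∀ j, a j • u j = w j • u j - c • (b.coord j x • u j) := fun j => by
      rw [ha, sub_smul, smul_smul]
    simp only [h3]
    rw [Finset.sum_sub_distrib, ← Finset.smul_sum, hb2, ← hz]
    abel
  have hc1 : 0 ≤ 1 - c := by rw [← hasum]; exact Finset.sum_nonneg fun j _ => ha0 j
  have haβ : ∀ j, a j < β := by
    intro j
    have := coeff_lt_sum (ι := Option (Fin (d + 1))) hK hβ1 (hu j) (hzu j)
      (fun o => o.elim c a) (fun o => o.elim x u)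
      (fun o => by cases o with
        | none => exact hc0
        | some i => exact ha0 i)
      (by
        rw [Fintype.sum_option]
        show c + ∑ j, a j = 1
        rw [hasum]
        ring)
      (fun o => by cases o with
        | none => exact hx
        | some i => exact hu i)
      (by
        rw [Fintype.sum_option]
        exact hz2)
      (i := some j) rfl
    exact this
  have hd0 : (0 : ℝ) < d := by exact_mod_cast hd1
  have hdβ : 0 < d * β := by positivity
  have hsum : ∑ j ∈ Finset.univ.erase k, (β - a j) = d * β - (1 - c) := by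
    rw [Finset.sum_sub_distrib, Finset.sum_const, Finset.card_erase_of_mem (Finset.mem_univ k),
      Finset.card_univ, Fintype.card_fin, Nat.add_sub_cancel, nsmul_eq_mul]
    have := Finset.add_sum_erase Finset.univ a (Finset.mem_univ k)
    rw [hak, zero_add, hasum] at this
    rw [this]
  refine ⟨k, ((1 - c) / (d * β)) • x +
    ∑ j ∈ Finset.univ.erase k, ((β - a j) / (d * β)) • u j, ?_, ?_⟩
  · have := hK.sum_mem (t := (Finset.univ : Finset (Option (Fin (d + 1)))))
      (w := fun o => o.elim ((1 - c) / (d * β)) (fun j => if j = k then 0 else (β - a j) / (d * β)))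
      (z := fun o => o.elim x u)
      (fun o _ => by cases o with
        | none => exact div_nonneg hc1 hdβ.le
        | some i =>
          show 0 ≤ if i = k then 0 else (β - a i) / (d * β)
          split_ifs
          · exact le_rfl
          · exact div_nonneg (by linarith [haβ i]) hdβ.le)
      (by
        rw [Fintype.sum_option]
        show (1 - c) / (d * β) + ∑ j, (if j = k then 0 else (β - a j) / (d * β)) = 1
        rw [← Finset.add_sum_erase Finset.univ _ (Finset.mem_univ k), if_pos rfl, zero_add]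
        have h6 : ∑ j ∈ Finset.univ.erase k, (if j = k then 0 else (β - a j) / (d * β)) =
            ∑ j ∈ Finset.univ.erase k, (β - a j) / (d * β) :=
          Finset.sum_congr rfl fun j hj => if_neg (Finset.ne_of_mem_erase hj)
        rw [h6, ← Finset.sum_div, hsum, ← add_div, div_eq_one_iff_eq hdβ.ne']
        ring)
      (fun o _ => by cases o with
        | none => exact hx
        | some i => exact hu i)
    rw [Fintype.sum_option] at this
    have h7 : ∑ j, (if j = k then (0 : ℝ) else (β - a j) / (d * β)) • u j =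
        ∑ j ∈ Finset.univ.erase k, ((β - a j) / (d * β)) • u j := by
      rw [← Finset.add_sum_erase Finset.univ _ (Finset.mem_univ k), if_pos rfl, zero_smul, zero_add]
      exact Finset.sum_congr rfl fun j hj => by rw [if_neg (Finset.ne_of_mem_erase hj)]
    rw [← h7]
    exact this
  · rw [smul_add, smul_smul, mul_div_cancel₀ _ hdβ.ne', Finset.smul_sum]
    have h8 : ∀ j, (d * β) • ((β - a j) / (d * β)) • u j = β • u j - a j • u j := fun j => by
      rw [smul_smul, mul_div_cancel₀ _ hdβ.ne', sub_smul]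
    simp only [h8]
    rw [Finset.sum_sub_distrib, ← Finset.smul_sum]
    have h9 : ∑ j ∈ Finset.univ.erase k, a j • u j = ∑ j, a j • u j := by
      rw [← Finset.add_sum_erase Finset.univ _ (Finset.mem_univ k), hak, zero_smul, zero_add]
    rw [h9, ← hz2, sub_smul, one_smul]
    abel

end Core

end Pool.Agent.Lib.MP_5e7226_co.MA
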