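import Pool.Agent.Lib.MP_5e7226_co.MA.Main
import Pool.Agent.Lib.MP_5e7226_co.AB.A4

/-!
Illumination and separation of the faces for bodies with large asymmetry.
-/

set_option autoImplicit false

open Set Module Filter Topology
open scoped InnerProductSpace

namespace Pool.Agent.Lib.MP_5e7226_co.MA

open Pool.Agent.Lib.MP_5e7226_co.AB

variable {d : ℕ}

theorem illuminated (hd : 2 ≤ d) {K : Set (EuclideanSpace ℝ (Fin d))} (hc : Convex ℝ K)
    (hK : IsCompact K) (hne : (interior K).Nonempty) (h : ¬ AsymLE K (d - 1)) :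
    ∃ p : Fin (d + 1) → EuclideanSpace ℝ (Fin d), (∀ i, p i ∉ K) ∧
      ∀ q ∈ frontier K, ∃ i, ∃ s : ℝ, 0 < s ∧ q + s • (q - p i) ∈ interior K := by
  obtain ⟨z, hz⟩ := hne
  obtain ⟨m, hm0, hm1, t, ht⟩ := cover_strict hc hK (finrank_euclideanSpace_fin (𝕜 := ℝ)) hd h
  exact illuminated_of_cover (by omega) hc hK hz hm0 hm1 t ht

theorem separated (hd : 2 ≤ d) {K : Set (EuclideanSpace ℝ (Fin d))}
    {o : EuclideanSpace ℝ (Fin d)} (ho : o ∈ interior K) (h : ¬ AsymLE (pol K o) (d - 1)) :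
    ∃ (w : Fin (d + 1) → EuclideanSpace ℝ (Fin d)) (b : Fin (d + 1) → ℝ),
      ∀ u x₀ : EuclideanSpace ℝ (Fin d), u ≠ 0 → x₀ ∈ K →
        (∀ y ∈ K, ⟪u, y⟫_ℝ ≤ ⟪u, x₀⟫_ℝ) →
          ∃ i, ⟪w i, o⟫_ℝ < b i ∧ ∀ x ∈ K, ⟪u, x⟫_ℝ = ⟪u, x₀⟫_ℝ → b i < ⟪w i, x⟫_ℝ := by
  obtain ⟨m, hm0, hm1, t, ht⟩ := cover_strict (pol_convex K o) (pol_isCompact ho)
    (finrank_euclideanSpace_fin (𝕜 := ℝ)) hd h
  exact separated_of_cover ho hm0.le hm1 t ht

/-- Points of the polar body which see the length of a direction. -/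
lemma exists_pol {K : Set (EuclideanSpace ℝ (Fin d))} (hc : Convex ℝ K) (hK : IsCompact K)
    {o : EuclideanSpace ℝ (Fin d)} (ho : o ∈ interior K) {v : EuclideanSpace ℝ (Fin d)} {g : ℝ}
    (hg : ∀ t : ℝ, o + t • v ∈ K → t * g ≤ 1) {ε : ℝ} (hε : 0 < ε) :
    ∃ y ∈ pol K o, g - ε ≤ ⟪y, v⟫_ℝ := by
  by_cases hg0 : g - ε ≤ 0
  · refine ⟨0, fun x _ => ?_, ?_⟩
    · rw [inner_zero_left]
      norm_num
    · rw [inner_zero_left]
      exact hg0
  · push Not at hg0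
    obtain ⟨t, ht⟩ : ∃ t : ℝ, t = 1 / (g - ε) := ⟨_, rfl⟩
    have ht0 : 0 < t := by rw [ht]; positivity
    have hnot : o + t • v ∉ K := by
      intro h
      have h1 := hg t h
      rw [ht, div_mul_eq_mul_div, one_mul, div_le_one hg0] at h1
      linarith
    obtain ⟨f, s, hf1, hf2⟩ := geometric_hahn_banach_closed_point hc hK.isClosed hnot
    -- f < s on K, s < f (o + t v)
    have hs : 0 < s - f o := by linarith [hf1 o (interior_subset ho)]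
    obtain ⟨y, hy⟩ : ∃ y : EuclideanSpace ℝ (Fin d), ∀ x, ⟪y, x⟫_ℝ = f x / (s - f o) := by
      refine ⟨(s - f o)⁻¹ • (InnerProductSpace.toDual ℝ _).symm f, fun x => ?_⟩
      rw [inner_smul_left, conj_trivial, InnerProductSpace.toDual_symm_apply]
      field_simp
    refine ⟨y, fun x hx => ?_, ?_⟩
    · rw [hy, div_le_one hs, map_sub]
      linarith [hf1 x hx]
    · have h1 : 1 < ⟪y, t • v⟫_ℝ := by
        rw [hy, lt_div_iff₀ hs, one_mul]
        rw [map_add] at hf2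
        linarith
      rw [inner_smul_right, ht, one_div, ← div_eq_inv_mul, lt_div_iff₀ hg0, one_mul] at h1
      exact h1.le

/-- The barycentre criterion. -/
theorem pol_asym {K : Set (EuclideanSpace ℝ (Fin d))} (hc : Convex ℝ K) (hK : IsCompact K)
    {o : EuclideanSpace ℝ (Fin d)} (ho : o ∈ interior K) {n : ℕ}
    (x : Fin n → EuclideanSpace ℝ (Fin d)) (w g : Fin n → ℝ) (hx : ∀ i, x i ∈ K)
    (hw : ∀ i, 0 ≤ w i) (hw1 : ∑ i, w i = 1) (hwx : ∑ i, w i • x i = o)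
    (hg : ∀ i, ∀ t : ℝ, o + t • (o - x i) ∈ K → t * g i ≤ 1) {σ : ℝ} (hσ : 0 ≤ σ)
    (hsum : σ < ∑ i, w i * g i) : ¬ AsymLE (pol K o) σ := by
  rintro ⟨c, hc'⟩
  obtain ⟨ε, hε⟩ : ∃ ε : ℝ, ε = (∑ i, w i * g i - σ) / 2 := ⟨_, rfl⟩
  have hε0 : 0 < ε := by rw [hε]; linarith
  have key : ∀ i, (1 + σ) * ⟪c, x i - o⟫_ℝ ≤ σ - (g i - ε) := by
    intro i
    obtain ⟨y, hy, hyg⟩ := exists_pol hc hK ho (hg i) hε0
    obtain ⟨y', hy', he⟩ := hc' y hy
    have h1 : ⟪c - y, x i - o⟫_ℝ = ⟪σ • (y' - c), x i - o⟫_ℝ := by rw [he]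
    rw [inner_smul_left, conj_trivial, inner_sub_left, inner_sub_left] at h1
    have h2 := hy' (x i) (hx i)
    have h3 : ⟪y, o - x i⟫_ℝ = - ⟪y, x i - o⟫_ℝ := by rw [← inner_neg_right, neg_sub]
    rw [h3] at hyg
    have h4 : σ * ⟪y', x i - o⟫_ℝ ≤ σ := by nlinarith
    linarith
  have h0 : ∑ i, w i * ((1 + σ) * ⟪c, x i - o⟫_ℝ) = 0 := by
    have e1 : ∀ i, w i * ((1 + σ) * ⟪c, x i - o⟫_ℝ) = (1 + σ) * ⟪c, w i • (x i - o)⟫_ℝ := fun i => by
      rw [inner_smul_right]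
      ring
    simp only [e1]
    rw [← Finset.mul_sum, ← inner_sum]
    have e2 : ∑ i, w i • (x i - o) = 0 := by
      simp only [smul_sub]
      rw [Finset.sum_sub_distrib, hwx, ← Finset.sum_smul, hw1, one_smul, sub_self]
    rw [e2, inner_zero_right, mul_zero]
  have h1 : ∑ i, w i * ((1 + σ) * ⟪c, x i - o⟫_ℝ) ≤ ∑ i, w i * (σ - (g i - ε)) :=
    Finset.sum_le_sum fun i _ => mul_le_mul_of_nonneg_left (key i) (hw i)
  have h2 : ∑ i, w i * (σ - (g i - ε)) = σ + ε - ∑ i, w i * g i := by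
    have e1 : ∀ i, w i * (σ - (g i - ε)) = w i * (σ + ε) - w i * g i := fun i => by ring
    simp only [e1]
    rw [Finset.sum_sub_distrib, ← Finset.sum_mul, hw1, one_mul]
  rw [h0, h2] at h1
  linarith

end Pool.Agent.Lib.MP_5e7226_co.MA
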