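import Pool.Agent.Lib.MP_5e7226_co.MA.Base

/-!
Convex bodies with large Minkowski asymmetry are covered by `d + 1` smaller homothetic copies.
-/

set_option autoImplicit false

open Set Module Filter Topology

namespace Pool.Agent.Lib.MP_5e7226_co.MA

variable {E : Type*} [NormedAddCommGroup E] [NormedSpace ℝ E]

lemma exists_weights {n : ℕ} (q : Fin (n + 1) → E) {z : E} (hz : z ∈ convexHull ℝ (range q)) :
    ∃ w : Fin (n + 1) → ℝ, (∀ j, 0 ≤ w j) ∧ ∑ j, w j = 1 ∧ ∑ j, w j • q j = z := by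
  classical
  have h : convexHull ℝ (range q) ⊆
      {z | ∃ w : Fin (n + 1) → ℝ, (∀ j, 0 ≤ w j) ∧ ∑ j, w j = 1 ∧ ∑ j, w j • q j = z} := by
    refine convexHull_min ?_ ?_
    · rintro _ ⟨k, rfl⟩
      refine ⟨fun j => if j = k then 1 else 0, fun j => ?_, by simp, by simp⟩
      show (0 : ℝ) ≤ if j = k then 1 else 0
      split_ifs <;> norm_num
    · rintro x ⟨w, h1, h2, rfl⟩ y ⟨w', h1', h2', rfl⟩ a b ha hb hab
      refine ⟨fun j => a * w j + b * w' j, fun j => ?_, ?_, ?_⟩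
      · exact add_nonneg (mul_nonneg ha (h1 j)) (mul_nonneg hb (h1' j))
      · rw [Finset.sum_add_distrib, ← Finset.mul_sum, ← Finset.mul_sum, h2, h2', mul_one, mul_one,
          hab]
      · simp only [add_smul, mul_smul]
        rw [Finset.sum_add_distrib, ← Finset.smul_sum, ← Finset.smul_sum]
  exact h hz

lemma Ku_convex {K : Set E} (hK : Convex ℝ K) (β : ℝ) (u : E) : Convex ℝ (Ku K β u) := by
  rintro _ ⟨x, hx, rfl⟩ _ ⟨y, hy, rfl⟩ a b ha hb hab
  refine ⟨a • x + b • y, hK hx hy ha hb hab, ?_⟩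
  have hb' : b = 1 - a := by linarith
  subst hb'
  module

lemma Ku_compact {K : Set E} (hK : IsCompact K) (β : ℝ) (u : E) : IsCompact (Ku K β u) := by
  have h : Ku K β u = (fun y => β • u + (1 - β) • y) '' K := by
    ext z
    constructor
    · rintro ⟨y, hy, rfl⟩
      exact ⟨y, hy, rfl⟩
    · rintro ⟨y, hy, rfl⟩
      exact ⟨y, hy, rfl⟩
  rw [h]
  exact hK.image (by fun_prop)

/-- The configuration: Helly's theorem and the KKM lemma. -/
theorem exists_config [FiniteDimensional ℝ E] {K : Set E} (hK : Convex ℝ K) (hKc : IsCompact K)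
    {d : ℕ} (hd : finrank ℝ E = d) (hd1 : 1 ≤ d) {β : ℝ} (hβ1 : β < 1) (hβd : d * β ≤ 1)
    (hemp : ∀ z, ∃ u ∈ K, z ∉ Ku K β u) :
    ∃ (u : Fin (d + 1) → E) (w : Fin (d + 1) → ℝ), (∀ j, u j ∈ K) ∧ (∀ j, 0 ≤ w j) ∧
      ∑ j, w j = 1 ∧ ∀ j, ∑ j, w j • u j ∉ Ku K β (u j) := by
  classical
  have hd0 : (0 : ℝ) < d := by exact_mod_cast hd1
  obtain ⟨I, hI, hIe⟩ : ∃ I : Finset K, I.card ≤ d + 1 ∧
      ¬ (⋂ i ∈ I, Ku K β (i : E)).Nonempty := by
    by_contra hcon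
    push Not at hcon
    have h := Convex.helly_theorem_compact' (𝕜 := ℝ) (F := fun i : K => Ku K β (i : E))
      (fun i => Ku_convex hK β _) (fun i => Ku_compact hKc β _) (by rw [hd]; exact hcon)
    obtain ⟨z, hz⟩ := h
    obtain ⟨u, hu, hzu⟩ := hemp z
    exact hzu (mem_iInter.1 hz ⟨u, hu⟩)
  have hIn : I.Nonempty := by
    rw [Finset.nonempty_iff_ne_empty]
    rintro rfl
    exact hIe (by simp)
  obtain ⟨g, hg⟩ : ∃ g : Fin (d + 1) → I, Function.Surjective g := by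
    have : Nonempty I := hIn.to_subtype
    have h1 : Fintype.card I ≤ Fintype.card (Fin (d + 1)) := by
      rw [Fintype.card_coe, Fintype.card_fin]
      exact hI
    obtain ⟨e⟩ := Function.Embedding.nonempty_of_card_le h1
    exact ⟨Function.invFun e, Function.invFun_surjective e.injective⟩
  obtain ⟨u, hu⟩ : ∃ u : Fin (d + 1) → E, ∀ j, u j = ((g j : K) : E) := ⟨_, fun j => rfl⟩
  have huK : ∀ j, u j ∈ K := fun j => by rw [hu]; exact (g j : K).2
  have hue : ¬ (⋂ j, Ku K β (u j)).Nonempty := by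
    rintro ⟨z, hz⟩
    refine hIe ⟨z, ?_⟩
    rw [mem_iInter₂]
    intro i hi
    obtain ⟨j, hj⟩ := hg ⟨i, hi⟩
    have h1 := mem_iInter.1 hz j
    rw [hu, hj] at h1
    exact h1
  obtain ⟨q, hq⟩ : ∃ q : Fin (d + 1) → E, ∀ k, q k =
    ∑ j, (if j = k then (0 : ℝ) else 1 / d) • u j := ⟨_, fun k => rfl⟩
  have hsum1 : ∀ k : Fin (d + 1), ∑ j, (if j = k then (0 : ℝ) else 1 / d) = 1 := by
    intro k
    rw [← Finset.add_sum_erase Finset.univ _ (Finset.mem_univ k), if_pos rfl, zero_add]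
    have h6 : ∑ j ∈ Finset.univ.erase k, (if j = k then (0 : ℝ) else 1 / d) =
        ∑ j ∈ Finset.univ.erase k, (1 / d : ℝ) :=
      Finset.sum_congr rfl fun j hj => if_neg (Finset.ne_of_mem_erase hj)
    rw [h6, Finset.sum_const, Finset.card_erase_of_mem (Finset.mem_univ k), Finset.card_univ,
      Fintype.card_fin, Nat.add_sub_cancel, nsmul_eq_mul, mul_one_div_cancel hd0.ne']
  have hw0 : ∀ k j : Fin (d + 1), (0 : ℝ) ≤ if j = k then (0 : ℝ) else 1 / d := by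
    intro k j
    split_ifs
    · exact le_rfl
    · positivity
  have hnot : ¬ convexHull ℝ (range q) ⊆ ⋃ j, Ku K β (u j) := by
    intro hcov
    refine hue (kkm_convex d (fun j => Ku K β (u j)) q (fun j => Ku_convex hK β _)
      (fun j => Ku_compact hKc β _) (fun j k hjk => ?_) hcov)
    by_contra hcon
    have h1 := coeff_lt_sum hK hβ1 (huK j) hcon (fun j => if j = k then (0 : ℝ) else 1 / d) u
      (hw0 k) (hsum1 k) huK (hq k).symm (i := j) rfl
    simp only [if_neg hjk] at h1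
    rw [div_lt_iff₀ hd0] at h1
    linarith
  rw [not_subset] at hnot
  obtain ⟨z, hz, hzn⟩ := hnot
  have hz' : z ∈ convexHull ℝ (range u) := by
    refine convexHull_min ?_ (convex_convexHull ℝ _) hz
    rintro _ ⟨k, rfl⟩
    rw [hq]
    exact (convex_convexHull ℝ (range u)).sum_mem (fun j _ => hw0 k j) (hsum1 k)
      (fun j _ => subset_convexHull ℝ _ ⟨j, rfl⟩)
  obtain ⟨w, h1, h2, h3⟩ := exists_weights u hz'
  refine ⟨u, w, huK, h1, h2, fun j => ?_⟩
  rw [h3]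
  exact fun h => hzn (mem_iUnion.2 ⟨j, h⟩)

/-- `K - c` reflected is contained in `σ (K - c)` for some point `c`: the Minkowski asymmetry of `K` is at
most `σ`. -/
def AsymLE (K : Set E) (σ : ℝ) : Prop := ∃ c : E, ∀ x ∈ K, ∃ y ∈ K, c - x = σ • (y - c)

lemma empty_of_asym {K : Set E} {σ : ℝ} (hσ : 0 < σ) (h : ¬ AsymLE K σ) (z : E) :
    ∃ u ∈ K, z ∉ Ku K (1 / (σ + 1)) u := by
  by_contra hcon
  push Not at hcon
  refine h ⟨z, fun x hx => ?_⟩
  obtain ⟨y, hy, hz⟩ := hcon x hx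
  refine ⟨y, hy, ?_⟩
  have h1 : (σ + 1) • z = x + σ • y := by
    have h2 : (σ + 1) • z = (σ + 1) • ((1 / (σ + 1)) • x + (1 - 1 / (σ + 1)) • y) := by
      rw [← hz]
    rw [h2, smul_add, smul_smul, smul_smul]
    have e1 : (σ + 1) * (1 / (σ + 1)) = 1 := by field_simp
    have e2 : (σ + 1) * (1 - 1 / (σ + 1)) = σ := by
      field_simp
      ring
    rw [e1, e2, one_smul]
  rw [smul_sub, sub_eq_sub_iff_add_eq_add]
  rw [add_smul, one_smul] at h1
  rw [add_comm z (σ • z), h1]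
  abel

/-- The covering theorem. -/
theorem cover_of_asym [FiniteDimensional ℝ E] {K : Set E} (hK : Convex ℝ K) (hKc : IsCompact K)
    {d : ℕ} (hd : finrank ℝ E = d) (hd2 : 2 ≤ d) {σ : ℝ} (hσ : d - 1 ≤ σ) (h : ¬ AsymLE K σ) :
    ∃ c : Fin (d + 1) → E, ∀ x ∈ K, ∃ k, ∃ y ∈ K, x = c k + (d / (σ + 1)) • y := by
  have hd0 : (2 : ℝ) ≤ d := by exact_mod_cast hd2
  have hσ1 : 1 ≤ σ := by linarith
  have hβ1 : 1 / (σ + 1) < 1 := by
    rw [div_lt_one (by linarith)]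
    linarith
  have hβd : d * (1 / (σ + 1)) ≤ 1 := by
    rw [mul_one_div, div_le_one (by linarith)]
    linarith
  obtain ⟨u, w, h1, h2, h3, h4⟩ := exists_config hK hKc hd (by omega) hβ1 hβd
    (empty_of_asym (by linarith) h)
  obtain ⟨c, hc⟩ := cover_core hK hd (by omega) (by positivity) hβ1 hβd u h1 w h2 h3 h4
  refine ⟨c, fun x hx => ?_⟩
  obtain ⟨k, y, hy, hxy⟩ := hc x hx
  exact ⟨k, y, hy, by rw [hxy, mul_one_div]⟩

lemma eventually_not_mem_Ku {K : Set E} (hKc : IsCompact K) {β : ℝ} {u z : E} (hu : u ∈ K)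
    (hz : z ∉ Ku K β u) : ∀ᶠ β' in 𝓝 β, z ∉ Ku K β' u := by
  obtain ⟨M, hM⟩ := hKc.isBounded.exists_norm_le
  have hM0 : 0 ≤ M := (norm_nonneg u).trans (hM u hu)
  have hcl : IsClosed (Ku K β u) := (Ku_compact hKc β u).isClosed
  obtain ⟨ε, hε, hball⟩ := Metric.isOpen_iff.1 hcl.isOpen_compl z hz
  have hη : 0 < ε / (2 * M + 1) := by positivity
  filter_upwards [Metric.ball_mem_nhds β hη] with β' hβ'
  rintro ⟨y, hy, hzy⟩
  rw [Metric.mem_ball, Real.dist_eq, lt_div_iff₀ (by positivity)] at hβ'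
  have h1 : β • u + (1 - β) • y ∈ Metric.ball z ε := by
    rw [Metric.mem_ball, dist_eq_norm, hzy]
    have e1 : β • u + (1 - β) • y - (β' • u + (1 - β') • y) = (β - β') • (u - y) := by module
    rw [e1, norm_smul, Real.norm_eq_abs, abs_sub_comm]
    have h2 : ‖u - y‖ ≤ 2 * M + 1 := by
      have := norm_sub_le u y
      linarith [hM u hu, hM y hy]
    have h3 : |β' - β| * ‖u - y‖ ≤ |β' - β| * (2 * M + 1) :=
      mul_le_mul_of_nonneg_left h2 (abs_nonneg _)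
    linarith
  exact hball h1 ⟨y, hy, rfl⟩

/-- If the asymmetry is larger than `d - 1`, then `d + 1` smaller copies cover `K`. -/
theorem cover_strict [FiniteDimensional ℝ E] {K : Set E} (hK : Convex ℝ K) (hKc : IsCompact K)
    {d : ℕ} (hd : finrank ℝ E = d) (hd2 : 2 ≤ d) (h : ¬ AsymLE K (d - 1)) :
    ∃ m : ℝ, 0 < m ∧ m < 1 ∧ ∃ c : Fin (d + 1) → E, ∀ x ∈ K, ∃ k, ∃ y ∈ K,
      x = c k + m • y := by
  have hd0 : (2 : ℝ) ≤ d := by exact_mod_cast hd2
  have e0 : (1 : ℝ) / (d - 1 + 1) = 1 / d := by rw [sub_add_cancel]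
  have hβ1 : 1 / (d : ℝ) < 1 := by
    rw [div_lt_one (by linarith)]
    linarith
  have hemp := empty_of_asym (K := K) (σ := d - 1) (by linarith) h
  rw [e0] at hemp
  obtain ⟨u, w, h1, h2, h3, h4⟩ := exists_config hK hKc hd (by omega) hβ1
    (by rw [mul_one_div_cancel (by linarith)]) hemp
  have hev : ∀ᶠ β' in 𝓝 (1 / (d : ℝ)), ∀ j, ∑ j, w j • u j ∉ Ku K β' (u j) :=
    eventually_all.2 fun j => eventually_not_mem_Ku hKc (h1 j) (h4 j)
  have hlt : ∀ᶠ β' in 𝓝[<] (1 / (d : ℝ)), ∀ j, ∑ j, w j • u j ∉ Ku K β' (u j) :=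
    hev.filter_mono nhdsWithin_le_nhds
  have hpos : 0 < 1 / (d : ℝ) := by positivity
  obtain ⟨β, hβ, hβ0, hβ2⟩ := (hlt.and (Ioo_mem_nhdsLT hpos)).exists
  have hdβ : d * β < 1 := by
    have := mul_lt_mul_of_pos_left hβ2 (show (0 : ℝ) < d by linarith)
    rw [mul_one_div_cancel (by linarith)] at this
    exact this
  obtain ⟨c, hc⟩ := cover_core hK hd (by omega) hβ0 (hβ2.trans hβ1) hdβ.le u h1 w h2 h3 hβ
  exact ⟨d * β, by positivity, hdβ, c, hc⟩

end Pool.Agent.Lib.MP_5e7226_co.MA
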